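import Pool.Agent.MP_fb66b8_al.Main

set_option autoImplicit false

open CategoryTheory

namespace Pool.Agent.Results.MP_fb66b8_al.SuslinFailsDegreeFour

/-- There is an infinite field `F`, namely (up to isomorphism) `𝔽₃(t)((s))`, the formal Laurent series
over the rational function field over the field with three elements, such that the standard inclusion
`A ↦ diag(A, 1)` of `GL₂(F)` into `GL₃(F)` induces a map `H₄(GL₂(F); ℚ) → H₄(GL₃(F); ℚ)` which is not
injective. -/
theorem result : ∃ (F : Type) (_ : Field F), Infinite F ∧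
    Nonempty (F ≃+* HahnSeries ℤ (RatFunc (ZMod 3))) ∧
    ∃ ι : Matrix.GeneralLinearGroup (Fin 2) F →* Matrix.GeneralLinearGroup (Fin 3) F,
      (∀ A : Matrix.GeneralLinearGroup (Fin 2) F,
        (ι A).val = !![A.val 0 0, A.val 0 1, 0; A.val 1 0, A.val 1 1, 0; 0, 0, 1]) ∧
      ¬ Function.Injective
        (groupHomology.map
          (A := Rep.trivial ℚ (Matrix.GeneralLinearGroup (Fin 2) F) ℚ)
          (B := Rep.trivial ℚ (Matrix.GeneralLinearGroup (Fin 3) F) ℚ)
          ι (𝟙 _) 4).hom :=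
  ⟨Pool.Agent.MP_fb66b8_al.FF, inferInstance, Pool.Agent.MP_fb66b8_al.infiniteFF,
    ⟨RingEquiv.refl _⟩, Pool.Agent.MP_fb66b8_al.iota,
    fun A => Pool.Agent.MP_fb66b8_al.blk_apply A.val, Pool.Agent.MP_fb66b8_al.final⟩

end Pool.Agent.Results.MP_fb66b8_al.SuslinFailsDegreeFour
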